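import Pool.Agent.W475.BG.Stm
import Pool.Agent.W797.BH.En

/-!
# Project BG (owner helper475), part EN: the local Dirichlet series is rarely tiny in a whole box.
The case of degree one is `Pool.Agent.W797.BH.En`, which is adapted here.
-/

set_option autoImplicit false

namespace Pool.Agent.W721.BG

open Complex MeasureTheory Filter Topology Pool.Agent.W475.BG
open Pool.Agent.W475.BH (PP Gk)
open scoped ComplexConjugate

/-- partial sums of the local Dirichlet series -/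
noncomputable def sn (D : Dat) (κ : ℝ) (s : Finset ℕ) (lam t : ℝ) : ℂ := ∑ n ∈ s,
  cc D κ n * (D.a n * (n : ℂ) ^ (-(1 / 2) - I * t)) *
    ((Real.exp (-(κ * (Real.log n - lam) ^ 2)) : ℝ) : ℂ)

theorem norm_cc (D : Dat) (κ : ℝ) (n : ℕ) : ‖cc D κ n‖ = 1 := by
  unfold cc
  rw [mul_comm, Complex.norm_exp_ofReal_mul_I]

/-- norm of a term -/
theorem norm_term (D : Dat) (κ : ℝ) (n : ℕ) (hn : 1 ≤ n) (lam t : ℝ) :
    ‖cc D κ n * (D.a n * (n : ℂ) ^ (-(1 / 2) - I * t)) *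
      ((Real.exp (-(κ * (Real.log n - lam) ^ 2)) : ℝ) : ℂ)‖ =
      ‖D.a n‖ * (n : ℝ) ^ (-(1 / 2) : ℝ) * Real.exp (-(κ * (Real.log n - lam) ^ 2)) := by
  rw [norm_mul, norm_mul, norm_cc, norm_mul, Pool.Agent.W797.BH.norm_cpow n hn t, one_mul,
    Complex.norm_real, Real.norm_eq_abs, abs_of_pos (Real.exp_pos _)]

/-- product of two terms -/
theorem term_mul (D : Dat) (κ : ℝ) (n p : ℕ) (hn : 1 ≤ n) (hp : 1 ≤ p) (lam t : ℝ) :
    (cc D κ n * (D.a n * (n : ℂ) ^ (-(1 / 2) - I * t)) *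
      ((Real.exp (-(κ * (Real.log n - lam) ^ 2)) : ℝ) : ℂ)) *
      (starRingEnd ℂ) (cc D κ p * (D.a p * (p : ℂ) ^ (-(1 / 2) - I * t)) *
        ((Real.exp (-(κ * (Real.log p - lam) ^ 2)) : ℝ) : ℂ)) =
    (D.a n * (starRingEnd ℂ) (D.a p)) *
    ((((n : ℝ) * p) ^ (-(1 / 2) : ℝ) : ℝ) : ℂ) * (cc D κ n * (starRingEnd ℂ) (cc D κ p)) *
      cexp (-(I * t * (Real.log ((n : ℝ) / p) : ℂ))) *
      ((Real.exp (-(κ * (Real.log n - lam) ^ 2) - κ * (Real.log p - lam) ^ 2) : ℝ) : ℂ) := by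
  have hnr : (0 : ℝ) < n := by exact_mod_cast hn
  have hpr : (0 : ℝ) < p := by exact_mod_cast hp
  rw [Pool.Agent.W797.BH.cpow_eq n hn t, Pool.Agent.W797.BH.cpow_eq p hp t, map_mul, map_mul,
    map_mul, map_mul, Complex.conj_ofReal, Complex.conj_ofReal,
    ← Complex.exp_conj, Real.mul_rpow hnr.le hpr.le, Real.log_div hnr.ne' hpr.ne', sub_eq_add_neg
      (-(κ * (Real.log n - lam) ^ 2)), Real.exp_add]
  have e1 : (starRingEnd ℂ) (-(I * t * (Real.log p : ℂ))) = I * t * (Real.log p : ℂ) := by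
    rw [map_neg, map_mul, map_mul, Complex.conj_I, Complex.conj_ofReal, Complex.conj_ofReal]
    ring
  have e2 : cexp (-(I * t * ((Real.log n - Real.log p : ℝ) : ℂ))) =
      cexp (-(I * t * (Real.log n : ℂ))) * cexp (I * t * (Real.log p : ℂ)) := by
    rw [← Complex.exp_add]
    congr 1
    push_cast
    ring
  rw [e1, e2]
  push_cast
  ring

/-- the inner integral -/
theorem inner_eq (D : Dat) (κ A B : ℝ) (s P : Finset ℕ) (hs : ∀ n ∈ s, 1 ≤ n)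
    (hP : ∀ p ∈ P, 1 ≤ p) (t : ℝ) :
    ∫ lam in A..B, sn D κ s lam t * (starRingEnd ℂ) (sn D κ P lam t) =
      ∑ q ∈ s ×ˢ P, (D.a q.1 * (starRingEnd ℂ) (D.a q.2)) *
        ((((q.1 : ℝ) * q.2) ^ (-(1 / 2) : ℝ) * Gk κ A B (Real.log q.1) (Real.log q.2) : ℝ) : ℂ) *
        (cc D κ q.1 * (starRingEnd ℂ) (cc D κ q.2)) *
          cexp (-(I * t * (Real.log ((q.1 : ℝ) / q.2) : ℂ))) := by
  have h1 : ∀ lam : ℝ, sn D κ s lam t * (starRingEnd ℂ) (sn D κ P lam t) = ∑ q ∈ s ×ˢ P,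
      ((D.a q.1 * (starRingEnd ℂ) (D.a q.2)) *
        ((((q.1 : ℝ) * q.2) ^ (-(1 / 2) : ℝ) : ℝ) : ℂ) *
        (cc D κ q.1 * (starRingEnd ℂ) (cc D κ q.2)) *
      cexp (-(I * t * (Real.log ((q.1 : ℝ) / q.2) : ℂ)))) *
      ((Real.exp (-(κ * (Real.log q.1 - lam) ^ 2) - κ * (Real.log q.2 - lam) ^ 2) : ℝ) : ℂ) := by
    intro lam
    unfold sn
    rw [map_sum, Finset.sum_mul_sum, Finset.sum_product]
    apply Finset.sum_congr rfl
    intro n hn
    apply Finset.sum_congr rfl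
    intro p hp
    exact term_mul D κ n p (hs n hn) (hP p hp) lam t
  simp_rw [h1]
  rw [intervalIntegral.integral_finsetSum]
  · apply Finset.sum_congr rfl
    intro q _
    rw [intervalIntegral.integral_const_mul, intervalIntegral.integral_ofReal]
    unfold Gk
    push_cast
    ring
  · intro q _
    apply Continuous.intervalIntegrable
    fun_prop

/-- the tested and averaged series -/
theorem R_eq (D : Dat) (κ A B W t0 : ℝ) (s P : Finset ℕ) (hs : ∀ n ∈ s, 1 ≤ n)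
    (hP : ∀ p ∈ P, 1 ≤ p) :
    ((1 / W : ℝ) : ℂ) * ∫ h in (0 : ℝ)..W, ∫ lam in A..B,
      sn D κ s lam (t0 + h) * (starRingEnd ℂ) (sn D κ P lam (t0 + h)) =
      ∑ q ∈ s ×ˢ P, aw D κ A B W q.1 q.2 *
        cexp (-(I * t0 * (Real.log ((q.1 : ℝ) / q.2) : ℂ))) := by
  simp_rw [inner_eq D κ A B s P hs hP]
  have h1 : ∀ h : ℝ, ∀ q : ℕ × ℕ,
      (D.a q.1 * (starRingEnd ℂ) (D.a q.2)) *
      ((((q.1 : ℝ) * q.2) ^ (-(1 / 2) : ℝ) * Gk κ A B (Real.log q.1) (Real.log q.2) : ℝ) : ℂ) *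
        (cc D κ q.1 * (starRingEnd ℂ) (cc D κ q.2)) *
          cexp (-(I * ((t0 + h : ℝ) : ℂ) * (Real.log ((q.1 : ℝ) / q.2) : ℂ))) =
      ((D.a q.1 * (starRingEnd ℂ) (D.a q.2)) *
      ((((q.1 : ℝ) * q.2) ^ (-(1 / 2) : ℝ) * Gk κ A B (Real.log q.1) (Real.log q.2) : ℝ) : ℂ) *
        (cc D κ q.1 * (starRingEnd ℂ) (cc D κ q.2)) *
          cexp (-(I * t0 * (Real.log ((q.1 : ℝ) / q.2) : ℂ)))) *
        cexp (-(I * h * (Real.log ((q.1 : ℝ) / q.2) : ℂ))) := by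
    intro h q
    have e : cexp (-(I * ((t0 + h : ℝ) : ℂ) * (Real.log ((q.1 : ℝ) / q.2) : ℂ))) =
        cexp (-(I * t0 * (Real.log ((q.1 : ℝ) / q.2) : ℂ))) *
          cexp (-(I * h * (Real.log ((q.1 : ℝ) / q.2) : ℂ))) := by
      rw [← Complex.exp_add]
      congr 1
      push_cast
      ring
    rw [e]
    ring
  simp_rw [h1]
  rw [intervalIntegral.integral_finsetSum]
  · rw [Finset.mul_sum]
    apply Finset.sum_congr rfl
    intro q _
    rw [intervalIntegral.integral_const_mul]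
    unfold aw
    ring
  · intro q _
    apply Continuous.intervalIntegrable
    fun_prop

/-- bound of the tested and averaged series -/
theorem R_norm (D : Dat) (κ A B W t0 S E : ℝ) (s P : Finset ℕ) (hs : ∀ n ∈ s, 1 ≤ n)
    (hP : ∀ p ∈ P, 1 ≤ p)
    (hAB : A ≤ B) (hW : 0 < W) (hS0 : 0 ≤ S)
    (hS : ∀ h lam : ℝ, 0 ≤ h → h ≤ W → A ≤ lam → lam ≤ B → ‖sn D κ s lam (t0 + h)‖ ≤ S)
    (hE : ∀ t lam : ℝ, ‖sn D κ P lam t‖ ≤ E) :
    ‖∑ q ∈ s ×ˢ P, aw D κ A B W q.1 q.2 * cexp (-(I * t0 * (Real.log ((q.1 : ℝ) / q.2) : ℂ)))‖ ≤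
      (B - A) * (S * E) := by
  rw [← R_eq D κ A B W t0 s P hs hP, norm_mul, Complex.norm_real, Real.norm_eq_abs,
    abs_of_pos (by positivity)]
  have h1 : ‖∫ h in (0 : ℝ)..W, ∫ lam in A..B,
      sn D κ s lam (t0 + h) * (starRingEnd ℂ) (sn D κ P lam (t0 + h))‖ ≤
        (S * E * |B - A|) * |W - 0| := by
    apply intervalIntegral.norm_integral_le_of_norm_le_const
    intro h hh
    rw [Set.uIoc_of_le hW.le] at hh
    apply intervalIntegral.norm_integral_le_of_norm_le_const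
    intro lam hlam
    rw [Set.uIoc_of_le hAB] at hlam
    rw [norm_mul, RCLike.norm_conj]
    exact mul_le_mul (hS h lam hh.1.le hh.2 hlam.1.le hlam.2) (hE _ _) (norm_nonneg _) hS0
  rw [sub_zero, abs_of_pos hW, abs_of_nonneg (sub_nonneg.mpr hAB)] at h1
  calc 1 / W * _ ≤ 1 / W * ((S * E * (B - A)) * W) := mul_le_mul_of_nonneg_left h1 (by positivity)
    _ = (B - A) * (S * E) := by field_simp

/-- the diagonal coefficients -/
theorem aw_diag (D : Dat) (κ A B W : ℝ) (hW : 0 < W) (p : ℕ) (hp : 1 ≤ p) :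
    aw D κ A B W p p =
      ((‖D.a p‖ ^ 2 / (p : ℝ) * Gk κ A B (Real.log p) (Real.log p) : ℝ) : ℂ) := by
  have hpr : (0 : ℝ) < p := by exact_mod_cast hp
  unfold aw
  have e1 : ((p : ℝ) * p) ^ (-(1 / 2) : ℝ) = 1 / (p : ℝ) := by
    rw [Real.mul_rpow hpr.le hpr.le, ← Real.rpow_add hpr]
    norm_num
    rw [Real.rpow_neg_one]
  have e2 : cc D κ p * (starRingEnd ℂ) (cc D κ p) = 1 := by
    rw [Complex.mul_conj, Complex.normSq_eq_norm_sq, norm_cc]
    norm_num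
  have e4 : D.a p * (starRingEnd ℂ) (D.a p) = ((‖D.a p‖ ^ 2 : ℝ) : ℂ) := by
    rw [Complex.mul_conj, Complex.normSq_eq_norm_sq]
  have e3 : ∫ h in (0 : ℝ)..W, cexp (-(I * h * (Real.log ((p : ℝ) / p) : ℂ))) = (W : ℂ) := by
    rw [div_self hpr.ne', Real.log_one]
    simp
  rw [e1, e2, e3, e4]
  have hWc : (W : ℂ) ≠ 0 := by exact_mod_cast hW.ne'
  push_cast
  field_simp

/-- size of the test polynomial -/
theorem D_bound (D : Dat) (κ : ℝ) (hκ : 0 < κ) (a b T : ℝ) (hT : 1 ≤ T) (t lam : ℝ) :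
    ‖sn D κ (PP a b T) lam t‖ ≤
      Real.sqrt (∑ p ∈ PP a b T, ‖D.a p‖ ^ 2 / (p : ℝ)) * T ^ (b / 2) := by
  have hPP : ∀ p ∈ PP a b T, 1 ≤ p := by
    intro p hp
    unfold PP at hp
    rw [Finset.mem_filter] at hp
    exact hp.2.1.one_lt.le
  have h1 : ‖sn D κ (PP a b T) lam t‖ ≤
      ∑ p ∈ PP a b T, (‖D.a p‖ * (p : ℝ) ^ (-(1 / 2) : ℝ)) * 1 := by
    unfold sn
    refine (norm_sum_le _ _).trans (Finset.sum_le_sum fun p hp => ?_)
    rw [norm_term D κ p (hPP p hp)]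
    have h2 : Real.exp (-(κ * (Real.log p - lam) ^ 2)) ≤ 1 := by
      rw [Real.exp_le_one_iff]
      have : 0 ≤ κ * (Real.log p - lam) ^ 2 := by positivity
      linarith
    exact mul_le_mul_of_nonneg_left h2 (by positivity)
  have h2 := Finset.sum_mul_sq_le_sq_mul_sq (PP a b T)
    (fun p : ℕ => ‖D.a p‖ * (p : ℝ) ^ (-(1 / 2) : ℝ)) (fun _ => (1 : ℝ))
  have h3 : ∑ p ∈ PP a b T, (‖D.a p‖ * (p : ℝ) ^ (-(1 / 2) : ℝ)) ^ 2 =
      ∑ p ∈ PP a b T, ‖D.a p‖ ^ 2 / (p : ℝ) := by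
    refine Finset.sum_congr rfl fun p hp => ?_
    have hpr : (0 : ℝ) < p := by exact_mod_cast hPP p hp
    rw [mul_pow, ← Real.rpow_natCast ((p : ℝ) ^ (-(1 / 2) : ℝ)) 2, ← Real.rpow_mul hpr.le]
    norm_num
    rw [Real.rpow_neg_one]
    rfl
  have h4 : ∑ _p ∈ PP a b T, (1 : ℝ) ^ 2 ≤ T ^ b := by
    have h5 : (PP a b T).card ≤ ⌊T ^ b⌋₊ := by
      have h6 : PP a b T ⊆ Finset.Icc 1 ⌊T ^ b⌋₊ := by
        intro p hp
        have h7 := hPP p hp
        unfold PP at hp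
        rw [Finset.mem_filter, Finset.mem_range] at hp
        exact Finset.mem_Icc.2 ⟨h7, by omega⟩
      have h8 := Finset.card_le_card h6
      rwa [Nat.card_Icc, Nat.add_sub_cancel] at h8
    have h6 : (⌊T ^ b⌋₊ : ℝ) ≤ T ^ b := Nat.floor_le (by positivity)
    have h7 : ((PP a b T).card : ℝ) ≤ (⌊T ^ b⌋₊ : ℝ) := by exact_mod_cast h5
    simp only [one_pow, Finset.sum_const, nsmul_eq_mul, mul_one]
    linarith
  rw [h3] at h2
  have hP0 : 0 ≤ ∑ p ∈ PP a b T, ‖D.a p‖ ^ 2 / (p : ℝ) :=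
    Finset.sum_nonneg fun p _ => by positivity
  have h5 : (Real.sqrt (∑ p ∈ PP a b T, ‖D.a p‖ ^ 2 / (p : ℝ)) * T ^ (b / 2)) ^ 2 =
      (∑ p ∈ PP a b T, ‖D.a p‖ ^ 2 / (p : ℝ)) * T ^ b := by
    rw [mul_pow, Real.sq_sqrt hP0, ← Real.rpow_natCast (T ^ (b / 2)) 2,
      ← Real.rpow_mul (by linarith)]
    congr 2
    push_cast
    ring
  refine h1.trans (abs_le_of_sq_le_sq' ?_ (by positivity)).2
  rw [h5]
  refine h2.trans ?_
  exact mul_le_mul_of_nonneg_left h4 hP0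

/-- terms of the tail -/
theorem tail_term (κ A b γ T lam : ℝ) (hκ : 0 < κ) (hA : 0 ≤ A) (hb : 0 < b) (hbγ : b < γ)
    (hT : 1 < T)
    (hbig : A + 2 + 2 / γ ≤ κ * (1 - b / γ) ^ 2 * γ * Real.log T) (hlam : lam ≤ b * Real.log T)
    (m : ℕ) (hm : T ^ γ < m) :
    (m : ℝ) ^ A * (m : ℝ) ^ (-(1 / 2) : ℝ) * Real.exp (-(κ * (Real.log m - lam) ^ 2)) ≤
      T ^ (-2 : ℝ) * (1 / (m : ℝ) ^ 2) := by
  have hγ : 0 < γ := hb.trans hbγ
  have hT0 : 0 < T := by linarith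
  have hl : 0 < Real.log T := Real.log_pos hT
  have hTγ : 1 ≤ T ^ γ := Real.one_le_rpow hT.le hγ.le
  have hm1 : (1 : ℝ) ≤ m := hTγ.trans hm.le
  have hm0 : (0 : ℝ) < m := by linarith
  set x := Real.log m with hx
  have hx1 : γ * Real.log T ≤ x := by
    rw [hx, ← Real.log_rpow hT0]
    exact Real.log_le_log (by positivity) hm.le
  have hx0 : 0 < x := lt_of_lt_of_le (by positivity) hx1
  have hc0 : 0 < 1 - b / γ := by
    have : b / γ < 1 := (div_lt_one hγ).mpr hbγ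
    linarith
  have h1 : (1 - b / γ) * x ≤ x - lam := by
    have h2 : b * Real.log T ≤ b / γ * x := by
      calc b * Real.log T = b / γ * (γ * Real.log T) := by field_simp
        _ ≤ b / γ * x := by gcongr
    linarith
  have h2 : (A + 2 + 2 / γ) * x ≤ κ * (x - lam) ^ 2 := by
    calc (A + 2 + 2 / γ) * x ≤ (κ * (1 - b / γ) ^ 2 * γ * Real.log T) * x := by gcongr
      _ = κ * (1 - b / γ) ^ 2 * (γ * Real.log T) * x := by ring
      _ ≤ κ * (1 - b / γ) ^ 2 * x * x := by gcongr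
      _ = κ * ((1 - b / γ) * x) ^ 2 := by ring
      _ ≤ κ * (x - lam) ^ 2 := by gcongr
  have h3 : A * x + (2 * x + 2 * Real.log T) ≤ κ * (x - lam) ^ 2 := by
    have : 2 * Real.log T ≤ 2 / γ * x := by
      calc 2 * Real.log T = 2 / γ * (γ * Real.log T) := by field_simp
        _ ≤ 2 / γ * x := by gcongr
    linarith
  have hmA : (m : ℝ) ^ A = Real.exp (A * x) := by
    rw [Real.rpow_def_of_pos hm0, hx, mul_comm]
  have h4 : (m : ℝ) ^ A * Real.exp (-(κ * (x - lam) ^ 2)) ≤ T ^ (-2 : ℝ) * (1 / (m : ℝ) ^ 2) := by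
    have e : T ^ (-2 : ℝ) * (1 / (m : ℝ) ^ 2) = Real.exp (-(2 * x + 2 * Real.log T)) := by
      have e1 : T ^ (-2 : ℝ) = Real.exp (-(2 * Real.log T)) := by
        rw [Real.rpow_def_of_pos hT0]
        congr 1
        ring
      have e2 : 1 / (m : ℝ) ^ 2 = Real.exp (-(2 * x)) := by
        rw [hx, Real.exp_neg, ← Real.log_rpow hm0, Real.exp_log (by positivity), one_div]
        norm_num
      rw [e1, e2, ← Real.exp_add]
      congr 1
      ring
    rw [e, hmA, ← Real.exp_add]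
    exact Real.exp_le_exp.mpr (by linarith)
  have h5 : (m : ℝ) ^ (-(1 / 2) : ℝ) ≤ 1 := Real.rpow_le_one_of_one_le_of_nonpos hm1 (by norm_num)
  calc (m : ℝ) ^ A * (m : ℝ) ^ (-(1 / 2) : ℝ) * Real.exp (-(κ * (x - lam) ^ 2))
      ≤ (m : ℝ) ^ A * 1 * Real.exp (-(κ * (x - lam) ^ 2)) := by gcongr
    _ = (m : ℝ) ^ A * Real.exp (-(κ * (x - lam) ^ 2)) := by ring
    _ ≤ _ := h4

/-- the tail of the series -/
theorem SS_tail (D : Dat) (κ A b γ T lam t : ℝ) (hκ : 0 < κ) (hA : 0 ≤ A)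
    (hgr : ∀ n : ℕ, 1 ≤ n → ‖D.a n‖ ≤ (n : ℝ) ^ A) (hb : 0 < b) (hbγ : b < γ) (hT : 2 ≤ T)
    (hbig : A + 2 + 2 / γ ≤ κ * (1 - b / γ) ^ 2 * γ * Real.log T) (hlam : lam ≤ b * Real.log T) :
    ‖SS D κ lam t - sn D κ (Finset.Icc 1 ⌊T ^ γ⌋₊) lam t‖ ≤ T ^ (-1 : ℝ) := by
  have hT0 : 0 < T := by linarith
  set f : ℕ → ℂ := fun n => cc D κ (n + 1) *
    (D.a (n + 1) * ((n + 1 : ℕ) : ℂ) ^ (-(1 / 2) - I * t)) *
    ((Real.exp (-(κ * (Real.log ((n + 1 : ℕ) : ℝ) - lam) ^ 2)) : ℝ) : ℂ) with hf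
  have hSS : SS D κ lam t = ∑' n, f n := by
    unfold SS
    congr 1
    funext n
    rw [hf]
    unfold cc
    push_cast
    rfl
  set N := ⌊T ^ γ⌋₊ with hN
  have hsn : sn D κ (Finset.Icc 1 N) lam t = ∑ n ∈ Finset.range N, f n := by
    unfold sn
    have e : Finset.Icc 1 N = (Finset.range N).image (fun i => i + 1) := by
      ext m
      rw [Finset.mem_Icc, Finset.mem_image]
      constructor
      · rintro ⟨h1, h2⟩
        exact ⟨m - 1, Finset.mem_range.mpr (by omega), by omega⟩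
      · rintro ⟨i, hi, rfl⟩
        have := Finset.mem_range.mp hi
        omega
    rw [e, Finset.sum_image (fun x _ y _ h => by simpa using h)]
  have hbd : ∀ i : ℕ, ‖f (i + N)‖ ≤ T ^ (-2 : ℝ) * (1 / ((i : ℝ) + 1) ^ 2) := by
    intro i
    have h1 : 1 ≤ i + N + 1 := by omega
    have h2 : T ^ γ < ((i + N + 1 : ℕ) : ℝ) := by
      have h3 : T ^ γ < (N : ℝ) + 1 := Nat.lt_floor_add_one _
      push_cast
      have : (0 : ℝ) ≤ i := Nat.cast_nonneg i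
      linarith
    have h3 := tail_term κ A b γ T lam hκ hA hb hbγ (by linarith) hbig hlam (i + N + 1) h2
    have h4 := norm_term D κ (i + N + 1) h1 lam t
    have h5 : ‖f (i + N)‖ = ‖D.a (i + N + 1)‖ * ((i + N + 1 : ℕ) : ℝ) ^ (-(1 / 2) : ℝ) *
        Real.exp (-(κ * (Real.log ((i + N + 1 : ℕ) : ℝ) - lam) ^ 2)) := h4
    rw [h5]
    have h7 : ‖D.a (i + N + 1)‖ * ((i + N + 1 : ℕ) : ℝ) ^ (-(1 / 2) : ℝ) *
        Real.exp (-(κ * (Real.log ((i + N + 1 : ℕ) : ℝ) - lam) ^ 2)) ≤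
        ((i + N + 1 : ℕ) : ℝ) ^ A * ((i + N + 1 : ℕ) : ℝ) ^ (-(1 / 2) : ℝ) *
        Real.exp (-(κ * (Real.log ((i + N + 1 : ℕ) : ℝ) - lam) ^ 2)) := by
      refine mul_le_mul_of_nonneg_right (mul_le_mul_of_nonneg_right (hgr _ h1) ?_) ?_
      · positivity
      · positivity
    refine h7.trans (h3.trans ?_)
    have h6 : ((i : ℝ) + 1) ≤ ((i + N + 1 : ℕ) : ℝ) := by
      push_cast
      have : (0 : ℝ) ≤ N := Nat.cast_nonneg N
      linarith
    gcongr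
  have hsum : Summable (fun i : ℕ => T ^ (-2 : ℝ) * ((1 : ℝ) / ((i : ℝ) + 1) ^ 2)) :=
    Pool.Agent.W797.BH.summable_inv.mul_left _
  have hfs : Summable (fun i : ℕ => f (i + N)) := Summable.of_norm_bounded hsum hbd
  have hfs' : Summable f := (summable_nat_add_iff N).mp hfs
  have e : SS D κ lam t - sn D κ (Finset.Icc 1 N) lam t = ∑' i : ℕ, f (i + N) := by
    rw [hSS, hsn, ← hfs'.sum_add_tsum_nat_add N]
    ring
  rw [e]
  calc ‖∑' i : ℕ, f (i + N)‖ ≤ ∑' i : ℕ, T ^ (-2 : ℝ) * ((1 : ℝ) / ((i : ℝ) + 1) ^ 2) :=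
        tsum_of_norm_bounded hsum.hasSum hbd
    _ = T ^ (-2 : ℝ) * ∑' i : ℕ, (1 : ℝ) / ((i : ℝ) + 1) ^ 2 := tsum_mul_left
    _ ≤ T ^ (-2 : ℝ) * 2 := by
        have := Pool.Agent.W797.BH.tsum_inv
        gcongr
    _ ≤ T ^ (-2 : ℝ) * T := by gcongr
    _ = T ^ (-1 : ℝ) := by
        nth_rewrite 2 [← Real.rpow_one T]
        rw [← Real.rpow_add hT0]
        norm_num

theorem en (D : Dat) (hD : Ok D) (hV : S_VAR D) : S_EN D := by
  intro κ hκ a b ω η ha hab hb hω hη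
  set γ : ℝ := (b + 1 / 2) / 2 with hγ
  have hb0 : 0 < b := ha.trans hab
  have hbγ : b < γ := by rw [hγ]; linarith
  have hγ2 : γ < 1 / 2 := by rw [hγ]; linarith
  have hγ0 : 0 < γ := hb0.trans hbγ
  obtain ⟨A, hA, hgr⟩ := hD.gr
  obtain ⟨c, T1, hc, hT1, hmer⟩ := hD.prim a b ha hab
  obtain ⟨C, T2, hC, hT2, hvar⟩ := hV κ hκ a b γ ha hab hbγ hγ2
  have hc0 : 0 < 1 - b / γ := by
    have : b / γ < 1 := (div_lt_one hγ0).mpr hbγ
    linarith
  -- the limits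
  have hlog : Tendsto (fun T : ℝ => Real.log T) atTop atTop := Real.tendsto_log_atTop
  have ev1 : ∀ᶠ T : ℝ in atTop, 1 / ω ≤ Real.log T := hlog.eventually_ge_atTop _
  have ev2 : ∀ᶠ T : ℝ in atTop, ω ≤ Real.log T := hlog.eventually_ge_atTop _
  have ev3 : ∀ᶠ T : ℝ in atTop, (A + 2 + 2 / γ) / (κ * (1 - b / γ) ^ 2 * γ) ≤ Real.log T :=
    hlog.eventually_ge_atTop _
  have ev4 : ∀ᶠ T : ℝ in atTop, Real.log T < Real.exp (-(2 * κ)) * Real.sqrt c / (2 * (b - a)) * T ^ (1 / 20 : ℝ) := by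
    have h0 : (fun T : ℝ => Real.log T) =o[atTop] fun T : ℝ => T ^ (1 / 20 : ℝ) :=
      isLittleO_log_rpow_atTop (by norm_num)
    have hpos : 0 < Real.exp (-(2 * κ)) * Real.sqrt c / (2 * (b - a)) / 2 := by
      have : 0 < b - a := sub_pos.mpr hab
      have : 0 < Real.sqrt c := Real.sqrt_pos.2 hc
      positivity
    filter_upwards [h0.bound hpos, eventually_gt_atTop (1 : ℝ)] with T hT hT1
    have hl : 0 < Real.log T := Real.log_pos hT1
    have hTp : 0 < T ^ (1 / 20 : ℝ) := by positivity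
    rw [Real.norm_eq_abs, Real.norm_eq_abs, abs_of_pos hl, abs_of_pos hTp] at hT
    nlinarith
  have ev5 : ∀ᶠ T : ℝ in atTop, 4 * Real.exp (4 * κ) * C / (c * ω * η) ≤ Real.log T := hlog.eventually_ge_atTop _
  have ev6 : ∀ᶠ T : ℝ in atTop, 4 * Real.exp (4 * κ) * C / (ω * η) ≤ Real.log T := hlog.eventually_ge_atTop _
  have ev7 : ∀ᶠ T : ℝ in atTop, 2 * Real.exp (4 * κ) * C / (c ^ 2 * η) ≤ T := eventually_ge_atTop _
  have ev8 : ∀ᶠ T : ℝ in atTop, max T1 T2 ≤ T := eventually_ge_atTop _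
  obtain ⟨T0, hT0⟩ := Filter.eventually_atTop.mp
    ((((((ev1.and ev2).and ev3).and ev4).and ev5).and ev6).and (ev7.and ev8))
  refine ⟨max 2 T0, le_max_left _ _, ?_⟩
  intro T hT
  have hT2' : 2 ≤ T := (le_max_left _ _).trans hT
  obtain ⟨⟨⟨⟨⟨⟨e1, e2⟩, e3⟩, e4⟩, e5⟩, e6⟩, e7, e8⟩ := hT0 T ((le_max_right _ _).trans hT)
  have hTpos : 0 < T := by linarith
  set l := Real.log T with hl
  have hlpos : 0 < l := Real.log_pos (by linarith)
  set W : ℝ := ω * l with hW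
  have hW1 : 1 ≤ W := by
    rw [hW]
    rw [div_le_iff₀ hω] at e1
    linarith
  have hWpos : 0 < W := by linarith
  have hW2 : W ≤ Real.log T ^ 2 := by
    rw [hW, sq]
    gcongr
  have hbig : A + 2 + 2 / γ ≤ κ * (1 - b / γ) ^ 2 * γ * Real.log T := by
    rw [div_le_iff₀ (by positivity)] at e3
    linarith
  have hP0 : c ≤ ∑ p ∈ PP a b T, ‖D.a p‖ ^ 2 / (p : ℝ) := hmer T ((le_max_left _ _).trans e8)
  set P0 : ℝ := ∑ p ∈ PP a b T, ‖D.a p‖ ^ 2 / (p : ℝ) with hP0def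
  have hP0pos : 0 < P0 := hc.trans_le hP0
  have hV := hvar T ((le_max_right _ _).trans e8) W hW1 hW2
  rw [← hP0def] at hV
  -- the sum
  set s : Finset ℕ := Finset.Icc 1 ⌊T ^ γ⌋₊ with hs
  have hs1 : ∀ n ∈ s, 1 ≤ n := fun n hn => (Finset.mem_Icc.mp hn).1
  have hPP : ∀ p ∈ PP a b T, 1 ≤ p := by
    intro p hp
    unfold PP at hp
    rw [Finset.mem_filter] at hp
    exact hp.2.1.one_lt.le
  have hPlog : ∀ p ∈ PP a b T, a * Real.log T + 1 ≤ Real.log p ∧ Real.log p ≤ b * Real.log T - 1 := by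
    intro p hp
    unfold PP at hp
    rw [Finset.mem_filter] at hp
    exact hp.2.2
  have hPs : ∀ p ∈ PP a b T, p ∈ s := by
    intro p hp
    rw [hs, Finset.mem_Icc]
    refine ⟨hPP p hp, ?_⟩
    unfold PP at hp
    rw [Finset.mem_filter, Finset.mem_range] at hp
    have h3 : ⌊T ^ b⌋₊ ≤ ⌊T ^ γ⌋₊ := by
      apply Nat.floor_le_floor
      exact Real.rpow_le_rpow_of_exponent_le (by linarith) hbγ.le
    omega
  set F : ℝ → ℂ := fun t => ∑ q ∈ (s ×ˢ PP a b T).filter (fun q => q.1 ≠ q.2),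
    aw D κ (a * Real.log T) (b * Real.log T) W q.1 q.2 *
      cexp (-(I * t * (Real.log ((q.1 : ℝ) / q.2) : ℂ))) with hF
  have hFc : Continuous F := by
    rw [hF]
    fun_prop
  set m0 : ℝ := ∑ p ∈ PP a b T, ‖D.a p‖ ^ 2 / (p : ℝ) * Gk κ (a * Real.log T) (b * Real.log T) (Real.log p) (Real.log p)
    with hm0
  have hm0low : 2 * Real.exp (-(2 * κ)) * P0 ≤ m0 := by
    rw [hm0, hP0def, Finset.mul_sum]
    apply Finset.sum_le_sum
    intro p hp
    have h3 := Pool.Agent.W797.BH.Gk_low κ (a * Real.log T) (b * Real.log T) (Real.log p) hκ (hPlog p hp).1 (hPlog p hp).2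
    calc 2 * Real.exp (-(2 * κ)) * (‖D.a p‖ ^ 2 / (p : ℝ)) =
        ‖D.a p‖ ^ 2 / (p : ℝ) * (2 * Real.exp (-(2 * κ))) := by ring
      _ ≤ _ := mul_le_mul_of_nonneg_left h3 (by positivity)
  have hm0pos : 0 < m0 := lt_of_lt_of_le (by positivity) hm0low
  -- decomposition
  have hdec : ∀ t : ℝ, ∑ q ∈ s ×ˢ PP a b T, aw D κ (a * Real.log T) (b * Real.log T) W q.1 q.2 *
      cexp (-(I * t * (Real.log ((q.1 : ℝ) / q.2) : ℂ))) = F t + (m0 : ℂ) := by
    intro t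
    rw [← Finset.sum_filter_add_sum_filter_not (s ×ˢ PP a b T) (fun q => q.1 ≠ q.2)]
    congr 1
    have e : (s ×ˢ PP a b T).filter (fun q => ¬ q.1 ≠ q.2) = (PP a b T).image (fun p => (p, p)) := by
      ext ⟨n, p⟩
      simp only [Finset.mem_filter, Finset.mem_product, not_not, Finset.mem_image, Prod.mk.injEq]
      constructor
      · rintro ⟨⟨_, hp⟩, rfl⟩
        exact ⟨n, hp, rfl, rfl⟩
      · rintro ⟨x, hx, rfl, rfl⟩
        exact ⟨⟨hPs x hx, hx⟩, rfl⟩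
    rw [e, Finset.sum_image (fun x _ y _ h => (Prod.mk.inj h).1), hm0, Complex.ofReal_sum]
    apply Finset.sum_congr rfl
    intro p hp
    have hpr : (p : ℝ) ≠ 0 := by
      have := hPP p hp
      exact_mod_cast (by omega : p ≠ 0)
    rw [aw_diag D κ _ _ W hWpos p (hPP p hp), div_self hpr, Real.log_one]
    simp
  -- the set
  have hsub : {t0 : ℝ | T ≤ t0 ∧ t0 ≤ 2 * T ∧ ∀ t lam : ℝ, t0 ≤ t → t ≤ t0 + ω * Real.log T →
      a * Real.log T ≤ lam → lam ≤ b * Real.log T → ‖SS D κ lam t‖ ≤ T ^ (-(3 / 10) : ℝ)} ⊆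
      {t : ℝ | T ≤ t ∧ t ≤ 2 * T ∧ m0 / 2 ≤ ‖F t‖} := by
    rintro t0 ⟨h3, h4, h5⟩
    refine ⟨h3, h4, ?_⟩
    have hS : ∀ h lam : ℝ, 0 ≤ h → h ≤ W → a * Real.log T ≤ lam → lam ≤ b * Real.log T →
        ‖sn D κ s lam (t0 + h)‖ ≤ 2 * T ^ (-(3 / 10) : ℝ) := by
      intro h lam hh0 hhW hlam1 hlam2
      have h6 := h5 (t0 + h) lam (by linarith) (by linarith) hlam1 hlam2
      have h7 := SS_tail D κ A b γ T lam (t0 + h) hκ hA hgr hb0 hbγ hT2' hbig hlam2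
      have h8 : T ^ (-1 : ℝ) ≤ T ^ (-(3 / 10) : ℝ) :=
        Real.rpow_le_rpow_of_exponent_le (by linarith) (by norm_num)
      have h9 : ‖sn D κ s lam (t0 + h)‖ ≤ ‖SS D κ lam (t0 + h)‖ +
          ‖SS D κ lam (t0 + h) - sn D κ s lam (t0 + h)‖ := by
        have := norm_sub_norm_le (sn D κ s lam (t0 + h)) (SS D κ lam (t0 + h))
        rw [norm_sub_rev] at this
        linarith
      linarith
    have hR := R_norm D κ (a * Real.log T) (b * Real.log T) W t0 (2 * T ^ (-(3 / 10) : ℝ))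
      (Real.sqrt P0 * T ^ (b / 2))
      s (PP a b T) hs1 hPP (by gcongr) hWpos (by positivity) hS
      (fun t lam => D_bound D κ hκ a b T (by linarith) t lam)
    rw [hdec] at hR
    have hsmall : (b * Real.log T - a * Real.log T) *
        (2 * T ^ (-(3 / 10) : ℝ) * (Real.sqrt P0 * T ^ (b / 2))) ≤ m0 / 2 := by
      have h6 : T ^ (b / 2) ≤ T ^ (1 / 4 : ℝ) :=
        Real.rpow_le_rpow_of_exponent_le (by linarith) (by linarith)
      have h7 : T ^ (-(3 / 10) : ℝ) * T ^ (1 / 4 : ℝ) * T ^ (1 / 20 : ℝ) = 1 := by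
        rw [← Real.rpow_add hTpos, ← Real.rpow_add hTpos]
        norm_num
      have hba : 0 < b - a := sub_pos.mpr hab
      have hsq0 : 0 < Real.sqrt P0 := Real.sqrt_pos.2 hP0pos
      have hsqc : Real.sqrt c ≤ Real.sqrt P0 := Real.sqrt_le_sqrt hP0
      have hsqP : Real.sqrt P0 * Real.sqrt P0 = P0 := Real.mul_self_sqrt hP0pos.le
      have h8 : (b * Real.log T - a * Real.log T) *
          (2 * T ^ (-(3 / 10) : ℝ) * (Real.sqrt P0 * T ^ (b / 2))) ≤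
          2 * (b - a) * (T ^ (-(3 / 10) : ℝ) * T ^ (1 / 4 : ℝ)) * l * Real.sqrt P0 := by
        calc (b * Real.log T - a * Real.log T) *
              (2 * T ^ (-(3 / 10) : ℝ) * (Real.sqrt P0 * T ^ (b / 2)))
            = 2 * (b - a) * (T ^ (-(3 / 10) : ℝ) * T ^ (b / 2)) * l * Real.sqrt P0 := by
              rw [hl]; ring
          _ ≤ _ := by gcongr
      have h9 : 2 * (b - a) * (T ^ (-(3 / 10) : ℝ) * T ^ (1 / 4 : ℝ)) * l ≤
          Real.exp (-(2 * κ)) * Real.sqrt c := by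
        calc 2 * (b - a) * (T ^ (-(3 / 10) : ℝ) * T ^ (1 / 4 : ℝ)) * l
            ≤ 2 * (b - a) * (T ^ (-(3 / 10) : ℝ) * T ^ (1 / 4 : ℝ)) *
              (Real.exp (-(2 * κ)) * Real.sqrt c / (2 * (b - a)) * T ^ (1 / 20 : ℝ)) := by gcongr
          _ = Real.exp (-(2 * κ)) * Real.sqrt c *
              (T ^ (-(3 / 10) : ℝ) * T ^ (1 / 4 : ℝ) * T ^ (1 / 20 : ℝ)) := by
              field_simp
          _ = _ := by rw [h7, mul_one]
      have h10 : Real.exp (-(2 * κ)) * Real.sqrt c * Real.sqrt P0 ≤ m0 / 2 := by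
        have h11 : Real.exp (-(2 * κ)) * Real.sqrt c * Real.sqrt P0 ≤
            Real.exp (-(2 * κ)) * Real.sqrt P0 * Real.sqrt P0 := by gcongr
        have h12 : Real.exp (-(2 * κ)) * Real.sqrt P0 * Real.sqrt P0 =
            Real.exp (-(2 * κ)) * P0 := by rw [mul_assoc, hsqP]
        linarith
      have h13 : 2 * (b - a) * (T ^ (-(3 / 10) : ℝ) * T ^ (1 / 4 : ℝ)) * l * Real.sqrt P0 ≤
          Real.exp (-(2 * κ)) * Real.sqrt c * Real.sqrt P0 := by gcongr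
      linarith
    have h6 : ‖(m0 : ℂ)‖ = m0 := by
      rw [Complex.norm_real, Real.norm_eq_abs, abs_of_pos hm0pos]
    have h7 : ‖(m0 : ℂ)‖ ≤ ‖F t0 + (m0 : ℂ)‖ + ‖F t0‖ := by
      have := norm_sub_le (F t0 + (m0 : ℂ)) (F t0)
      rwa [add_sub_cancel_left] at this
    linarith
  refine (measure_mono hsub).trans ((Pool.Agent.W797.BH.cheb F hFc T m0 _ hTpos.le hm0pos hV).trans ?_)
  apply ENNReal.ofReal_le_ofReal
  -- the final estimate
  have hE : Real.exp (-(2 * κ)) ^ 2 * Real.exp (4 * κ) = 1 := by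
    rw [← Real.exp_nat_mul, ← Real.exp_add]
    push_cast
    rw [show (2 : ℝ) * -(2 * κ) + 4 * κ = 0 by ring, Real.exp_zero]
  have h3 : 4 / m0 ^ 2 ≤ Real.exp (4 * κ) / P0 ^ 2 := by
    rw [div_le_div_iff₀ (by positivity) (by positivity)]
    have h4 : (2 * Real.exp (-(2 * κ)) * P0) ^ 2 ≤ m0 ^ 2 := by gcongr
    calc 4 * P0 ^ 2 = 4 * P0 ^ 2 * (Real.exp (-(2 * κ)) ^ 2 * Real.exp (4 * κ)) := by rw [hE, mul_one]
      _ = Real.exp (4 * κ) * (2 * Real.exp (-(2 * κ)) * P0) ^ 2 := by ring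
      _ ≤ Real.exp (4 * κ) * m0 ^ 2 := by gcongr
  have hX0 : 0 ≤ C * T * (P0 / W + (P0 / W) ^ 2) + C := by positivity
  calc 4 / m0 ^ 2 * (C * T * (P0 / W + (P0 / W) ^ 2) + C)
      ≤ Real.exp (4 * κ) / P0 ^ 2 * (C * T * (P0 / W + (P0 / W) ^ 2) + C) := by gcongr
    _ = Real.exp (4 * κ) * C * (T * (1 / (P0 * W) + 1 / W ^ 2) + 1 / P0 ^ 2) := by
        field_simp
    _ ≤ Real.exp (4 * κ) * C * (T * (1 / (c * W) + 1 / W ^ 2) + 1 / c ^ 2) := by gcongr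
    _ ≤ Real.exp (4 * κ) * C * (T * (1 / (c * W) + 1 / W) + 1 / c ^ 2) := by
        have : 1 / W ^ 2 ≤ 1 / W := by
          apply one_div_le_one_div_of_le hWpos
          nlinarith
        gcongr
    _ ≤ η * T := by
        have g5 : Real.exp (4 * κ) * C * (1 / (c * W)) ≤ η / 4 := by
          rw [mul_one_div, div_le_iff₀ (by positivity), hW]
          rw [div_le_iff₀ (by positivity)] at e5
          nlinarith
        have g6 : Real.exp (4 * κ) * C * (1 / W) ≤ η / 4 := by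
          rw [mul_one_div, div_le_iff₀ (by positivity), hW]
          rw [div_le_iff₀ (by positivity)] at e6
          nlinarith
        have g7 : Real.exp (4 * κ) * C * (1 / c ^ 2) ≤ η / 2 * T := by
          rw [mul_one_div, div_le_iff₀ (by positivity)]
          rw [div_le_iff₀ (by positivity)] at e7
          nlinarith
        calc Real.exp (4 * κ) * C * (T * (1 / (c * W) + 1 / W) + 1 / c ^ 2)
            = T * (Real.exp (4 * κ) * C * (1 / (c * W))) + T * (Real.exp (4 * κ) * C * (1 / W)) +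
              Real.exp (4 * κ) * C * (1 / c ^ 2) := by ring
          _ ≤ T * (η / 4) + T * (η / 4) + η / 2 * T := by gcongr
          _ = η * T := by ring

end Pool.Agent.W721.BG
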